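import Pool.Agent.Helper87.VM.Stmts
import Pool.Agent.Helper87.VM.Lib

/-!
The tangent space of `X` at a point not at infinity (module VTS).
-/

set_option autoImplicit false

namespace Pool.Agent.Helper87.VM

open MvPolynomial Pool.Agent.Helper48.VMRT

section vts

variable (D : VD)

/-- the differential of `gr` at `x0` -/
noncomputable def vts_Th (x0 x' : Option (Fin D.w) → ℂ) : Option (Fin D.w) × D.ν → ℂ :=
  seg x' (ev D.F x0) + seg x0 (dev D.F x0 x')

theorem vts_Th_add (x0 x1 x2 : Option (Fin D.w) → ℂ) :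
    vts_Th D x0 (x1 + x2) = vts_Th D x0 x1 + vts_Th D x0 x2 := by
  unfold vts_Th
  rw [dev_add, seg_add_left, seg_add_right]
  abel

theorem vts_Th_smul (x0 x1 : Option (Fin D.w) → ℂ) (a : ℂ) :
    vts_Th D x0 (a • x1) = a • vts_Th D x0 x1 := by
  unfold vts_Th
  rw [dev_smul, seg_smul_left, seg_smul_right, smul_add]

theorem vts_Th_mem (x0 x' : Option (Fin D.w) → ℂ) : vts_Th D x0 x' ∈ tsp D.Y (D.gr x0) := by
  have h : vts_Th D x0 x' ∈ tsp D.Y ((fun s : ℂ => D.gr (x0 + s • x')) 0) := by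
    refine deriv_mem_tsp (S := D.Y) (γ := fun s : ℂ => D.gr (x0 + s • x'))
      (γ' := vts_Th D x0 x') (τ := 0) ?_ (fun s => D.gr_mem _)
    rintro ⟨o, j⟩
    have h1 := hasDerivAt_line x0 x' 0 o
    have h2 := hasDerivAt_eval (D.F j) (γ := fun s : ℂ => x0 + s • x') (γ' := x') (τ := 0)
      (fun i => hasDerivAt_line x0 x' 0 i)
    have h3 := h1.mul h2
    have e : x' o * eval (x0 + (0 : ℂ) • x') (D.F j) +
        (x0 + (0 : ℂ) • x') o * dpol (D.F j) (x0 + (0 : ℂ) • x') x' = vts_Th D x0 x' (o, j) := by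
      rw [zero_smul, add_zero]
      rfl
    rw [e] at h3
    exact h3
  have e : (fun s : ℂ => D.gr (x0 + s • x')) 0 = D.gr x0 := by
    show D.gr (x0 + (0 : ℂ) • x') = D.gr x0
    rw [zero_smul, add_zero]
  rwa [e] at h

theorem vts_Th_self (hF : ∀ j, HomE D.a (D.F j)) (x0 : Option (Fin D.w) → ℂ) :
    vts_Th D x0 x0 = ((D.a : ℂ) + 1) • D.gr x0 := by
  have h : dev D.F x0 x0 = (D.a : ℂ) • ev D.F x0 := funext fun j => euler (hF j) x0
  unfold vts_Th
  rw [h, seg_smul_right, VD.gr, add_smul, one_smul]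
  abel

theorem vts_Th_inj (hF : ∀ j, HomE D.a (D.F j)) (x0 : Option (Fin D.w) → ℂ) (hx0 : x0 ≠ 0)
    (hFx : ev D.F x0 ≠ 0) (x' : Option (Fin D.w) → ℂ) (h : vts_Th D x0 x' = 0) : x' = 0 := by
  obtain ⟨j0, hj0⟩ := Function.ne_iff.1 hFx
  have hj0' : ev D.F x0 j0 ≠ 0 := hj0
  have h1 : x' = (-(dev D.F x0 x' j0) / ev D.F x0 j0) • x0 := by
    funext o
    have h2 := congrFun h (o, j0)
    have h3 : x' o * ev D.F x0 j0 + x0 o * dev D.F x0 x' j0 = 0 := h2
    rw [Pi.smul_apply, smul_eq_mul]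
    field_simp
    linear_combination h3
  have h4 : (-(dev D.F x0 x' j0) / ev D.F x0 j0) * ((D.a : ℂ) + 1) = 0 := by
    rw [h1, vts_Th_smul, vts_Th_self D hF, smul_smul] at h
    rcases smul_eq_zero.1 h with h5 | h5
    · exact h5
    · exact absurd h5 (seg_ne_zero hx0 hFx)
  have h6 : ((D.a : ℂ) + 1) ≠ 0 := by
    have h7 : ((D.a + 1 : ℕ) : ℂ) ≠ 0 := Nat.cast_ne_zero.2 (Nat.succ_ne_zero _)
    push_cast at h7
    exact h7
  rw [(mul_eq_zero.1 h4).resolve_right h6, zero_smul] at h1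
  exact h1

end vts

theorem st_VTS : ST_VTS := by
  intro D hD b hb hb0 u
  have hF : ∀ j, HomE D.a (D.F j) := hD.fd.hom
  have hx0 : (ov 1 u : Option (Fin D.w) → ℂ) ≠ 0 := by
    intro h
    have h1 := congrFun h none
    exact one_ne_zero h1
  have hFx : ev D.F (ov 1 u) ≠ 0 := by
    intro h
    have h1 := ((hD.fd.zero (ov 1 u)).1 (fun j => congrFun h j)).1
    exact one_ne_zero h1
  set x0 : Option (Fin D.w) → ℂ := ov 1 u with hx0def
  have hy0 : D.gr x0 ≠ 0 := seg_ne_zero hx0 hFx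
  have hyY : D.gr x0 ∈ D.Y := D.gr_mem x0
  have hv0 : ev2 D.E b (D.gr x0) ≠ 0 := hD.xd.ne b hb hb0 _ hyY hy0
  have hvX : ev2 D.E b (D.gr x0) ∈ XS D.E D.B D.Y := ⟨b, hb, _, hyY, rfl⟩
  have hk0 : ((D.k : ℕ) : ℂ) ≠ 0 := by
    have h1 := hD.kpos
    exact Nat.cast_ne_zero.2 (by omega)
  have ha0 : ((D.a : ℂ) + 1) ≠ 0 := by
    have h7 : ((D.a + 1 : ℕ) : ℂ) ≠ 0 := Nat.cast_ne_zero.2 (Nat.succ_ne_zero _)
    push_cast at h7
    exact h7
  have hy0T : D.gr x0 ∈ tsp D.Y (D.gr x0) := self_mem_tsp hD.Ypm.cone hyY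
  have hbT : b ∈ tsp D.B b := self_mem_tsp hD.Bpm.cone hb
  -- the second tangent vector of the curve
  obtain ⟨b1, hb1, hb1n⟩ : ∃ b1 ∈ tsp D.B b, b1 ∉ Submodule.span ℂ {b} := by
    by_contra hcon
    push Not at hcon
    have h1 : tsp D.B b ≤ Submodule.span ℂ {b} := hcon
    have h2 := Submodule.finrank_mono h1
    rw [hD.Bpm.smooth b hb hb0, finrank_span_singleton hb0] at h2
    omega
  -- the map
  let g : ((Fin D.w → ℂ) × ℂ) →ₗ[ℂ] (Fin (D.N + 1) → ℂ) :=
    { toFun := fun p => d2 D.E b (D.gr x0) (p.2 • b1) (vts_Th D x0 (ov 0 p.1))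
      map_add' := by
        intro p q
        have e1 : (ov 0 (p + q).1 : Option (Fin D.w) → ℂ) = ov 0 p.1 + ov 0 q.1 := by
          rw [← ov_add, add_zero]
          rfl
        show d2 D.E b (D.gr x0) ((p + q).2 • b1) (vts_Th D x0 (ov 0 (p + q).1)) = _
        rw [e1, vts_Th_add, Prod.snd_add, add_smul, d2_add]
      map_smul' := by
        intro c p
        have e1 : (ov 0 (c • p).1 : Option (Fin D.w) → ℂ) = c • ov 0 p.1 := by
          rw [← ov_smul, mul_zero]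
          rfl
        show d2 D.E b (D.gr x0) ((c • p).2 • b1) (vts_Th D x0 (ov 0 (c • p).1)) = _
        rw [e1, vts_Th_smul, Prod.smul_snd, smul_assoc, d2_smul]
        rfl }
  have hg : ∀ p, g p = d2 D.E b (D.gr x0) (p.2 • b1) (vts_Th D x0 (ov 0 p.1)) := fun p => rfl
  have hv : ev2 D.E b (D.gr x0) = (D.k : ℂ)⁻¹ • d2 D.E b (D.gr x0) 0 (D.gr x0) := by
    rw [d2_euler_right hD.xd.hom, smul_smul, inv_mul_cancel₀ hk0, one_smul]
  -- the key fact
  have key : ∀ (p : (Fin D.w → ℂ) × ℂ) (e : ℂ), g p + e • ev2 D.E b (D.gr x0) = 0 →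
      p = 0 ∧ e = 0 := by
    intro p e h
    have h1 : d2 D.E b (D.gr x0) (p.2 • b1)
        (vts_Th D x0 (ov 0 p.1) + (e * (D.k : ℂ)⁻¹) • D.gr x0) = 0 := by
      have h2 : (e * (D.k : ℂ)⁻¹) • d2 D.E b (D.gr x0) 0 (D.gr x0) =
          d2 D.E b (D.gr x0) 0 ((e * (D.k : ℂ)⁻¹) • D.gr x0) := by
        rw [← d2_smul, smul_zero]
      have h3 := d2_add D.E b (D.gr x0) (p.2 • b1) 0 (vts_Th D x0 (ov 0 p.1))
        ((e * (D.k : ℂ)⁻¹) • D.gr x0)
      rw [add_zero] at h3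
      rw [h3, ← h2, ← smul_smul, ← hv, ← hg]
      exact h
    obtain ⟨c, hc1, hc2⟩ := hD.xd.ker b hb hb0 _ hyY hy0 (p.2 • b1)
      (Submodule.smul_mem _ _ hb1) _
      (Submodule.add_mem _ (vts_Th_mem D x0 _) (Submodule.smul_mem _ _ hy0T)) h1
    have hp2 : p.2 = 0 := by
      by_contra hne
      apply hb1n
      rw [Submodule.mem_span_singleton]
      refine ⟨p.2⁻¹ * (c * D.k), ?_⟩
      rw [← smul_smul, ← hc1, smul_smul, inv_mul_cancel₀ hne, one_smul]
    have hc0 : c = 0 := by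
      rw [hp2, zero_smul] at hc1
      rcases smul_eq_zero.1 hc1.symm with h4 | h4
      · exact (mul_eq_zero.1 h4).resolve_right hk0
      · exact absurd h4 hb0
    rw [hc0, zero_mul, neg_zero, zero_smul] at hc2
    have h5 : vts_Th D x0 (ov 0 p.1 + (e * (D.k : ℂ)⁻¹ * ((D.a : ℂ) + 1)⁻¹) • x0) = 0 := by
      rw [vts_Th_add, vts_Th_smul, vts_Th_self D hF, smul_smul, mul_assoc, inv_mul_cancel₀ ha0,
        mul_one]
      exact hc2
    have h6 := vts_Th_inj D hF x0 hx0 hFx _ h5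
    have h7 := congrFun h6 none
    have h8 : (0 : ℂ) + (e * (D.k : ℂ)⁻¹ * ((D.a : ℂ) + 1)⁻¹) * 1 = 0 := h7
    rw [zero_add, mul_one] at h8
    have he : e = 0 := by
      have h9 := (mul_eq_zero.1 h8).resolve_right (inv_ne_zero ha0)
      exact (mul_eq_zero.1 h9).resolve_right (inv_ne_zero hk0)
    refine ⟨?_, he⟩
    rw [he, zero_mul, zero_mul, zero_smul, add_zero] at h6
    refine Prod.ext ?_ hp2
    funext i
    exact congrFun h6 (some i)
  have hinj : Function.Injective g := by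
    rw [← LinearMap.ker_eq_bot, LinearMap.ker_eq_bot']
    intro p hp
    have h1 := key p 0 (by rw [hp, zero_smul, add_zero])
    exact h1.1
  have hinf : LinearMap.range g ⊓ Submodule.span ℂ {ev2 D.E b (D.gr x0)} = ⊥ := by
    rw [eq_bot_iff]
    intro y hy
    obtain ⟨⟨p, hp⟩, hy2⟩ := Submodule.mem_inf.1 hy
    obtain ⟨e, he⟩ := Submodule.mem_span_singleton.1 hy2
    have h1 := key p (-e) (by rw [hp, neg_smul, he, add_neg_cancel])
    rw [Submodule.mem_bot, ← hp, h1.1, map_zero]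
  refine ⟨g, hinj, ?_, hinf, ?_⟩
  · intro z
    rw [hg]
    show d2 D.E b (D.gr x0) ((0 : ℂ) • b1) (vts_Th D x0 (ov 0 z)) = D.dTh b u z
    rw [zero_smul]
    rfl
  · have hle : LinearMap.range g ⊔ Submodule.span ℂ {ev2 D.E b (D.gr x0)} ≤
        tsp D.X (ev2 D.E b (D.gr x0)) := by
      refine sup_le ?_ ?_
      · rintro _ ⟨p, rfl⟩
        exact (hD.xd.tan b hb hb0 _ hyY hy0 _).2 ⟨p.2 • b1, Submodule.smul_mem _ _ hb1,
          vts_Th D x0 (ov 0 p.1), vts_Th_mem D x0 _, rfl⟩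
      · rw [Submodule.span_singleton_le_iff_mem]
        exact self_mem_tsp hD.xd.pm.cone hvX
    refine Submodule.eq_of_le_of_finrank_eq hle ?_
    have h1 := Submodule.finrank_sup_add_finrank_inf_eq (LinearMap.range g)
      (Submodule.span ℂ {ev2 D.E b (D.gr x0)})
    rw [hinf, finrank_bot, add_zero, LinearMap.finrank_range_of_inj hinj,
      finrank_span_singleton hv0, Module.finrank_prod, Module.finrank_fin_fun,
      Module.finrank_self] at h1
    rw [h1]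
    exact (hD.xd.pm.smooth _ hvX hv0).symm

end Pool.Agent.Helper87.VM
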