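import Pool.Agent.Helper87.VM.Stmts
import Pool.Agent.Helper87.VM.Lib2

/-!
Lower bound for the tangent spaces of the blow-up (module YLO).
-/

set_option autoImplicit false

namespace Pool.Agent.Helper87.VM

open MvPolynomial Pool.Agent.Helper48.VMRT

section ylo

variable {κ ν : Type} [Fintype κ] [Fintype ν]

/-- the differential of `x ↦ seg x (F x)` -/
noncomputable def ylo_Th (F : ν → MvPolynomial κ ℂ) (x0 : κ → ℂ) :
    (κ → ℂ) →ₗ[ℂ] (κ × ν → ℂ) where
  toFun x' := seg x' (ev F x0) + seg x0 (dev F x0 x')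
  map_add' x1 x2 := by
    rw [dev_add, seg_add_left, seg_add_right]
    abel
  map_smul' a x1 := by
    rw [dev_smul, seg_smul_left, seg_smul_right, RingHom.id_apply, smul_add]

theorem ylo_Th_apply (F : ν → MvPolynomial κ ℂ) (x0 x' : κ → ℂ) :
    ylo_Th F x0 x' = seg x' (ev F x0) + seg x0 (dev F x0 x') := rfl

theorem ylo_mem (F : ν → MvPolynomial κ ℂ) (x : κ → ℂ) : seg x (ev F x) ∈ Yc F :=
  ⟨x, ev F x, rfl, syz_ev F x⟩

theorem ylo_Th_mem (F : ν → MvPolynomial κ ℂ) (x0 x' : κ → ℂ) :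
    ylo_Th F x0 x' ∈ tsp (Yc F) (seg x0 (ev F x0)) := by
  have h : ylo_Th F x0 x' ∈
      tsp (Yc F) ((fun s : ℂ => seg (x0 + s • x') (ev F (x0 + s • x'))) 0) := by
    refine deriv_mem_tsp (S := Yc F) (γ := fun s : ℂ => seg (x0 + s • x') (ev F (x0 + s • x')))
      (γ' := ylo_Th F x0 x') (τ := 0) ?_ (fun s => ylo_mem F _)
    rintro ⟨o, j⟩
    have h1 := hasDerivAt_line x0 x' 0 o
    have h2 := hasDerivAt_eval (F j) (γ := fun s : ℂ => x0 + s • x') (γ' := x') (τ := 0)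
      (fun i => hasDerivAt_line x0 x' 0 i)
    have h3 := h1.mul h2
    have e : x' o * eval (x0 + (0 : ℂ) • x') (F j) +
        (x0 + (0 : ℂ) • x') o * dpol (F j) (x0 + (0 : ℂ) • x') x' = ylo_Th F x0 x' (o, j) := by
      rw [zero_smul, add_zero]
      rfl
    rw [e] at h3
    exact h3
  have e : (fun s : ℂ => seg (x0 + s • x') (ev F (x0 + s • x'))) 0 = seg x0 (ev F x0) := by
    show seg (x0 + (0 : ℂ) • x') (ev F (x0 + (0 : ℂ) • x')) = seg x0 (ev F x0)
    rw [zero_smul, add_zero]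
  rwa [e] at h

theorem ylo_Th_self {a : ℕ} (F : ν → MvPolynomial κ ℂ) (hF : ∀ j, HomE a (F j)) (x0 : κ → ℂ) :
    ylo_Th F x0 x0 = ((a : ℂ) + 1) • seg x0 (ev F x0) := by
  have h : dev F x0 x0 = (a : ℂ) • ev F x0 := funext fun j => euler (hF j) x0
  rw [ylo_Th_apply, h, seg_smul_right, add_smul, one_smul]
  abel

theorem ylo_Th_inj {a : ℕ} (F : ν → MvPolynomial κ ℂ) (hF : ∀ j, HomE a (F j)) (x0 : κ → ℂ)
    (hx0 : x0 ≠ 0) (hFx : ev F x0 ≠ 0) : Function.Injective (ylo_Th F x0) := by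
  rw [← LinearMap.ker_eq_bot, LinearMap.ker_eq_bot']
  intro x' h
  obtain ⟨j0, hj0⟩ := Function.ne_iff.1 hFx
  have hj0' : ev F x0 j0 ≠ 0 := hj0
  have h1 : x' = (-(dev F x0 x' j0) / ev F x0 j0) • x0 := by
    funext o
    have h2 := congrFun h (o, j0)
    have h3 : x' o * ev F x0 j0 + x0 o * dev F x0 x' j0 = 0 := h2
    rw [Pi.smul_apply, smul_eq_mul]
    field_simp
    linear_combination h3
  have h4 : (-(dev F x0 x' j0) / ev F x0 j0) * ((a : ℂ) + 1) = 0 := by
    rw [h1, map_smul, ylo_Th_self F hF, smul_smul] at h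
    rcases smul_eq_zero.1 h with h5 | h5
    · exact h5
    · exact absurd h5 (seg_ne_zero hx0 hFx)
  have h6 : ((a : ℂ) + 1) ≠ 0 := by
    have h7 : ((a + 1 : ℕ) : ℂ) ≠ 0 := Nat.cast_ne_zero.2 (Nat.succ_ne_zero _)
    push_cast at h7
    exact h7
  rw [(mul_eq_zero.1 h4).resolve_right h6, zero_smul] at h1
  exact h1

end ylo

theorem st_YLO (hYIR : ST_YIR) (hLB : ST_LB) : ST_YLO := by
  intro G ν _ _ w Z ρ a F ρν hFD
  have hF : ∀ j, HomE a (F j) := hFD.hom
  have ha : a ≠ 0 := by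
    have := hFD.two_le
    omega
  have he : ∃ j0, eval (ov 1 (0 : Fin w → ℂ)) (F j0) ≠ 0 := by
    by_contra hcon
    push Not at hcon
    exact one_ne_zero ((hFD.zero (ov 1 0)).1 hcon).1
  obtain ⟨j0, hj0⟩ := he
  have hev : ∀ z : Option (Fin w) × ν → ℂ,
      eval z (aeval (fun o => (X (o, j0) : MvPolynomial (Option (Fin w) × ν) ℂ)) (F j0)) =
        eval (fun o => z (o, j0)) (F j0) := by
    intro z
    rw [eval_aeval]
    have e : ev (fun o => (X (o, j0) : MvPolynomial (Option (Fin w) × ν) ℂ)) z =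
        fun o => z (o, j0) := by
      funext o
      exact eval_X _
    rw [e]
  refine hLB (Option (Fin w) × ν) (Yc F) (w + 1)
    (aeval (fun o => (X (o, j0) : MvPolynomial (Option (Fin w) × ν) ℂ)) (F j0))
    (hYIR G ν w Z ρ a F ρν hFD) ?_ ?_
  · refine ⟨seg (ov 1 0) (ev F (ov 1 0)), ylo_mem F _, ?_⟩
    rw [hev]
    have e : (fun o => seg (ov 1 (0 : Fin w → ℂ)) (ev F (ov 1 0)) (o, j0)) =
        (ev F (ov 1 0) j0) • (ov 1 (0 : Fin w → ℂ)) := by
      funext o
      show ov 1 (0 : Fin w → ℂ) o * ev F (ov 1 0) j0 = ev F (ov 1 0) j0 * ov 1 (0 : Fin w → ℂ) o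
      exact mul_comm _ _
    rw [e, hF j0]
    exact mul_ne_zero (pow_ne_zero _ hj0) hj0
  · rintro y ⟨x, η, hy, hsyz⟩ hne
    rw [hev] at hne
    have e : (fun o => y (o, j0)) = (η j0) • x := by
      funext o
      rw [hy]
      exact mul_comm _ _
    rw [e, hF j0] at hne
    have hη0 : η j0 ≠ 0 := by
      intro h0
      rw [h0, zero_pow ha, zero_mul] at hne
      exact hne rfl
    have hFx0 : eval x (F j0) ≠ 0 := right_ne_zero_of_mul hne
    have hFx : ev F x ≠ 0 := fun h => hFx0 (congrFun h j0)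
    obtain ⟨c, hc⟩ := hsyz.eq_smul hFx
    have hc0 : c ≠ 0 := by
      intro h0
      rw [h0, zero_smul] at hc
      exact hη0 (congrFun hc j0)
    obtain ⟨b, hb⟩ : ∃ b : ℂ, b ^ (a + 1) = c := IsAlgClosed.exists_pow_nat_eq c (Nat.succ_pos a)
    have hb0 : b ≠ 0 := by
      intro h0
      rw [h0, zero_pow (Nat.succ_ne_zero a)] at hb
      exact hc0 hb.symm
    have hx1 : ev F (b • x) = b ^ a • ev F x := funext fun j => hF j b x
    have hyx1 : y = seg (b • x) (ev F (b • x)) := by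
      rw [hx1, seg_smul_smul, ← pow_succ', hb, hy, hc, seg_smul_right]
    have hx0 : x ≠ 0 := by
      intro h0
      rw [h0] at hFx0
      have h1 := hF j0 0 (0 : Option (Fin w) → ℂ)
      rw [smul_zero, zero_pow ha, zero_mul] at h1
      exact hFx0 h1
    have hbx0 : b • x ≠ 0 := smul_ne_zero hb0 hx0
    have hFbx : ev F (b • x) ≠ 0 := by
      rw [hx1]
      exact smul_ne_zero (pow_ne_zero _ hb0) hFx
    have hle : LinearMap.range (ylo_Th F (b • x)) ≤ tsp (Yc F) y := by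
      rintro _ ⟨x', rfl⟩
      rw [hyx1]
      exact ylo_Th_mem F _ _
    have h1 := Submodule.finrank_mono hle
    rw [LinearMap.finrank_range_of_inj (ylo_Th_inj F hF (b • x) hbx0 hFbx),
      Module.finrank_fintype_fun_eq_card, Fintype.card_option, Fintype.card_fin] at h1
    exact h1

end Pool.Agent.Helper87.VM
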